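import Pool.Agent.helper15.DH.Spec
import Pool.Agent.helper93.ED.WG

/-!
# Project dh (MP_4467b5_nt), module ONE: the one-sided inequality with zeta weights
-/

set_option autoImplicit false

open Complex MeasureTheory

namespace Pool.Agent.DH

open Pool.Agent.helper84.DM Pool.Agent.helper78.ED

theorem ONE_wg (N L : ℕ) (hN : 1 ≤ N) (hL : 1 ≤ L) (k : ℕ)
    (hk : k ∈ Finset.Ioc (N * L) (16 * (N * L))) : 1 ≤ Real.exp 16 * wg ((N : ℝ) * L) k := by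
  rw [Finset.mem_Ioc] at hk
  have hM : (1 : ℝ) ≤ (N : ℝ) * L := by
    have h1 : (1 : ℝ) ≤ N := by exact_mod_cast hN
    have h2 : (1 : ℝ) ≤ L := by exact_mod_cast hL
    nlinarith
  have h1 : (N : ℝ) * L ≤ k := by exact_mod_cast hk.1.le
  have h2 : (k : ℝ) ≤ 2 ^ 4 * ((N : ℝ) * L) := by
    have : (k : ℝ) ≤ 16 * ((N : ℝ) * L) := by exact_mod_cast hk.2
    linarith
  have h3 := wg_lower hM h1 h2
  have h4 : Real.exp 16 * Real.exp (-(((4 : ℕ) : ℝ) ^ 2)) = 1 := by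
    rw [← Real.exp_add]
    norm_num
  calc (1 : ℝ) = Real.exp 16 * Real.exp (-(((4 : ℕ) : ℝ) ^ 2)) := h4.symm
    _ ≤ Real.exp 16 * wg ((N : ℝ) * L) k :=
      mul_le_mul_of_nonneg_left h3 (Real.exp_pos _).le

theorem ONE (hHMA : HMA_stmt) (hGRP : GRP_stmt) (hDUA : DUA_stmt) : ONE_stmt := by
  intro Z N L a V D hN hL hV hD hZ
  obtain ⟨c, hc, h1⟩ := hHMA Z N L a V hV hZ
  have hD0 : 0 ≤ D := by
    have h2 := hD 1 le_rfl (by nlinarith [Nat.mul_le_mul hN hL])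
    exact le_trans (Nat.cast_nonneg _) h2
  have hF0 : ∀ k : ℕ, 0 ≤ ∑ y ∈ IL L, ‖RR Z c k y‖ ^ 2 := fun k =>
    Finset.sum_nonneg fun y _ => by positivity
  have h2 := hGRP N L D (fun k => ∑ y ∈ IL L, ‖RR Z c k y‖ ^ 2) hF0 hD
  have hM : (1 : ℝ) ≤ (N : ℝ) * L := by
    have h1 : (1 : ℝ) ≤ N := by exact_mod_cast hN
    have h2 : (1 : ℝ) ≤ L := by exact_mod_cast hL
    nlinarith
  have h3 := hDUA Z c ((N : ℝ) * L) (Finset.Ioc (N * L) (16 * (N * L))) (IL L) hc hM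
    (by simp) (by simp [IL])
  have h4 : ∑ k ∈ Finset.Ioc (N * L) (16 * (N * L)), ∑ y ∈ IL L, ‖RR Z c k y‖ ^ 2 ≤
      Real.exp 16 * ∑ k ∈ Finset.Ioc (N * L) (16 * (N * L)),
        wg ((N : ℝ) * L) k * ∑ y ∈ IL L, ‖RR Z c k y‖ ^ 2 := by
    rw [Finset.mul_sum]
    refine Finset.sum_le_sum fun k hk => ?_
    rw [← mul_assoc]
    exact le_mul_of_one_le_left (hF0 k) (ONE_wg N L hN hL k hk)
  have h5 : Real.exp 16 * ∑ k ∈ Finset.Ioc (N * L) (16 * (N * L)),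
        wg ((N : ℝ) * L) k * ∑ y ∈ IL L, ‖RR Z c k y‖ ^ 2 ≤ Real.exp 16 *
      ∑ ρ ∈ Z, ∑ ρ' ∈ Z, ‖SS ((N : ℝ) * L) 0 (ρ.im - ρ'.im)‖ * ‖PL (IL L) (ρ.im - ρ'.im)‖ :=
    mul_le_mul_of_nonneg_left h3 (Real.exp_pos _).le
  have h6 := mul_le_mul_of_nonneg_left (h4.trans h5) hD0
  exact h1.trans (mul_le_mul_of_nonneg_left (h2.trans h6)
    (Finset.sum_nonneg fun n _ => by positivity))

end Pool.Agent.DH
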