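import Pool.Agent.helper18.DH.SpecM

/-!
# Module LRR of project dh (row d2:MLRR): Lipschitz constants, right recursion
-/

set_option autoImplicit false

open Filter Topology MeasureTheory
open scoped commutatorElement

namespace Pool.Agent.helper90.DH

open Pool.Agent.helper64.D2

theorem LRR_c1 (f : ℝ → ℝ) (hf : ContDiff ℝ 2 f) : ContDiff ℝ 1 (deriv f) := by
  have h : ContDiff ℝ (1 + 1) f := by
    rw [show (1 : WithTop ℕ∞) + 1 = 2 from one_add_one_eq_two]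
    exact hf
  exact (contDiff_succ_iff_deriv.1 h).2.2

theorem LRR_lip (f : ℝ → ℝ) (C : ℝ) (hf : Differentiable ℝ f) (h : ∀ x, |deriv f x| ≤ C) (x y : ℝ) :
    |f x - f y| ≤ C * |x - y| := by
  have h2 := Convex.norm_image_sub_le_of_norm_deriv_le (𝕜 := ℝ) (f := f) (C := C)
    (s := Set.univ) (fun y _ => hf y) (fun y _ => by rw [Real.norm_eq_abs]; exact h y) convex_univ
    (Set.mem_univ y) (Set.mem_univ x)
  simpa [Real.norm_eq_abs] using h2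

theorem LRR_d1 (g : DD) : Differentiable ℝ (ev g) := (ev_contDiff g).differentiable (by norm_num)

theorem LRR_d2 (g : DD) : Differentiable ℝ (deriv (ev g)) :=
  (LRR_c1 _ (ev_contDiff g)).differentiable (by norm_num)

theorem LRR_step (hNCA : NCA_stmt) (hNSZ : NSZ_stmt) (hNLP : NLP_stmt) (R T : DD) (a δ Λ lam : ℝ)
    (ha : a ≤ 1 / 100) (hδ : 0 ≤ δ) (hlam : 0 ≤ lam) (hR : Sz R a)
    (hT : Sz T a) (hTL : Lp T Λ) (hTd : ∀ x, |deriv (ev T) x - 1| ≤ δ)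
    (hN : ∀ x y : ℝ, |Nn R x - Nn R y| ≤ lam * |x - y|) (x y : ℝ) :
    |Nn (R * T) x - Nn (R * T) y| ≤ ((1 + δ) ^ 2 * lam + (2 * Λ + 2)) * |x - y| := by
  have ha0 : 0 ≤ a := (abs_nonneg _).trans (hT 0)
  have h1 : ∀ z, |deriv (ev T) z| ≤ 1 + δ := by
    intro z
    have h := hTd z
    rw [abs_le] at h ⊢
    constructor <;> linarith [h.1, h.2]
  have h2 : |ev T x - ev T y| ≤ (1 + δ) * |x - y| := LRR_lip _ _ (LRR_d1 T) h1 x y
  have h3 : |deriv (ev T) x - deriv (ev T) y| ≤ a * |x - y| :=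
    LRR_lip _ _ (LRR_d2 T) (fun z => hT z) x y
  have h4 : |Nn R (ev T y)| ≤ a * (1 + 2 * a) := hNSZ.1 R a hR (by linarith) _
  have h5 : |Nn T x - Nn T y| ≤ (2 * Λ + 1) * |x - y| := hNLP.1 T a Λ hT (by linarith) hTL x y
  have h6 : |Nn R (ev T x) - Nn R (ev T y)| ≤ lam * ((1 + δ) * |x - y|) :=
    (hN _ _).trans (mul_le_mul_of_nonneg_left h2 hlam)
  have hd : 0 ≤ |x - y| := abs_nonneg _
  have e : Nn (R * T) x - Nn (R * T) y = (Nn R (ev T x) - Nn R (ev T y)) * deriv (ev T) x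
      + Nn R (ev T y) * (deriv (ev T) x - deriv (ev T) y) + (Nn T x - Nn T y) := by
    rw [hNCA.2.2.2.2.2.2.1 R T x, hNCA.2.2.2.2.2.2.1 R T y]
    ring
  rw [e]
  have h7 : |(Nn R (ev T x) - Nn R (ev T y)) * deriv (ev T) x| ≤ lam * ((1 + δ) * |x - y|) * (1 + δ) := by
    rw [abs_mul]
    exact mul_le_mul h6 (h1 x) (abs_nonneg _) (mul_nonneg hlam (mul_nonneg (by linarith) hd))
  have h8 : |Nn R (ev T y) * (deriv (ev T) x - deriv (ev T) y)| ≤ a * (1 + 2 * a) * (a * |x - y|) := by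
    rw [abs_mul]
    exact mul_le_mul h4 h3 (abs_nonneg _) (mul_nonneg ha0 (by linarith))
  have h9 : a * (1 + 2 * a) * (a * |x - y|) ≤ 1 * |x - y| := by
    have h10 : a * (1 + 2 * a) * a ≤ 1 := by
      have g1 : a * (1 + 2 * a) ≤ 1 := by nlinarith
      have g2 : 0 ≤ a * (1 + 2 * a) := mul_nonneg ha0 (by linarith)
      nlinarith
    calc a * (1 + 2 * a) * (a * |x - y|) = a * (1 + 2 * a) * a * |x - y| := by ring
      _ ≤ 1 * |x - y| := mul_le_mul_of_nonneg_right h10 hd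
  calc |(Nn R (ev T x) - Nn R (ev T y)) * deriv (ev T) x
        + Nn R (ev T y) * (deriv (ev T) x - deriv (ev T) y) + (Nn T x - Nn T y)|
      ≤ |(Nn R (ev T x) - Nn R (ev T y)) * deriv (ev T) x
        + Nn R (ev T y) * (deriv (ev T) x - deriv (ev T) y)| + |Nn T x - Nn T y| := abs_add_le _ _
    _ ≤ |(Nn R (ev T x) - Nn R (ev T y)) * deriv (ev T) x|
        + |Nn R (ev T y) * (deriv (ev T) x - deriv (ev T) y)| + |Nn T x - Nn T y| := by
          linarith [abs_add_le ((Nn R (ev T x) - Nn R (ev T y)) * deriv (ev T) x)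
            (Nn R (ev T y) * (deriv (ev T) x - deriv (ev T) y))]
    _ ≤ lam * ((1 + δ) * |x - y|) * (1 + δ) + 1 * |x - y| + (2 * Λ + 1) * |x - y| := by linarith
    _ = ((1 + δ) ^ 2 * lam + (2 * Λ + 2)) * |x - y| := by ring

theorem LRR_ind (hNCA : NCA_stmt) (hNSZ : NSZ_stmt) (hNLP : NLP_stmt) (q : ℕ) (T R : ℕ → DD)
    (a δ Λ : ℝ) (ha : a ≤ 1 / 100) (hδ : 0 ≤ δ) (hΛ : 0 ≤ Λ) (hRq : R q = 1)
    (hrec : ∀ i < q, R i = R (i + 1) * T i)
    (hT : ∀ i < q, Sz (T i) a ∧ Lp (T i) Λ ∧ ∀ x, |deriv (ev (T i)) x - 1| ≤ δ)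
    (hR : ∀ i ≤ q, Sz (R i) a) (n : ℕ) : ∀ i, i + n = q → ∀ x y : ℝ,
      |Nn (R i) x - Nn (R i) y| ≤ ((1 + δ) ^ 2) ^ n * (n * (2 * Λ + 2)) * |x - y| := by
  induction n with
  | zero =>
    intro i hi x y
    have : i = q := by omega
    subst this
    rw [hRq, (hNCA.2.2.2.2.2.2.2.2 x).1, (hNCA.2.2.2.2.2.2.2.2 y).1]
    simp
  | succ n ih =>
    intro i hi x y
    have h1 := ih (i + 1) (by omega)
    have hp : 1 ≤ (1 + δ) ^ 2 := by nlinarith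
    have hp2 : 1 ≤ ((1 + δ) ^ 2) ^ (n + 1) := one_le_pow₀ hp
    have h0 : 0 ≤ ((1 + δ) ^ 2) ^ n * (n * (2 * Λ + 2)) := by positivity
    obtain ⟨t1, t2, t3⟩ := hT i (by omega)
    have h2 := LRR_step hNCA hNSZ hNLP (R (i + 1)) (T i) a δ Λ _ ha hδ h0 (hR (i + 1) (by omega))
      t1 t2 t3 h1 x y
    rw [hrec i (by omega)]
    refine h2.trans (mul_le_mul_of_nonneg_right ?_ (abs_nonneg _))
    have h3 : (2 * Λ + 2) ≤ ((1 + δ) ^ 2) ^ (n + 1) * (2 * Λ + 2) := by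
      have : 0 ≤ 2 * Λ + 2 := by linarith
      nlinarith
    calc (1 + δ) ^ 2 * (((1 + δ) ^ 2) ^ n * (n * (2 * Λ + 2))) + (2 * Λ + 2)
        ≤ (1 + δ) ^ 2 * (((1 + δ) ^ 2) ^ n * (n * (2 * Λ + 2)))
          + ((1 + δ) ^ 2) ^ (n + 1) * (2 * Λ + 2) := by linarith
      _ = ((1 + δ) ^ 2) ^ (n + 1) * (((n + 1 : ℕ) : ℝ) * (2 * Λ + 2)) := by
          push_cast
          ring

theorem LRR (hNCA : NCA_stmt) (hNSZ : NSZ_stmt) (hNLP : NLP_stmt) : LRR_stmt := by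
  intro q T R a δ Λ ha hδ hqδ hΛ hRq hrec hT hR i hi
  have h1 := LRR_ind hNCA hNSZ hNLP q T R a δ Λ ha hδ hΛ hRq hrec hT hR (q - i) i (by omega)
  have hexp : ((1 + δ) ^ 2) ^ q ≤ 2 := by
    have e1 : 1 + δ ≤ Real.exp δ := by linarith [Real.add_one_le_exp δ]
    have e2 : ((1 + δ) ^ 2) ^ q ≤ Real.exp (1 / 2) := by
      calc ((1 + δ) ^ 2) ^ q ≤ ((Real.exp δ) ^ 2) ^ q := by gcongr
        _ = Real.exp (2 * (q * δ)) := by
          rw [← pow_mul, ← Real.exp_nat_mul]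
          congr 1
          push_cast
          ring
        _ ≤ Real.exp (1 / 2) := Real.exp_le_exp.2 (by linarith)
    have e3 : Real.exp (1 / 2) ^ 2 ≤ 4 := by
      rw [← Real.exp_nat_mul]
      have : ((2 : ℕ) : ℝ) * (1 / 2) = 1 := by norm_num
      rw [this]
      linarith [Real.exp_one_lt_d9]
    have e4 : Real.exp (1 / 2) ≤ 2 := by
      nlinarith [Real.exp_pos (1 / 2)]
    linarith
  have hp : 1 ≤ (1 + δ) ^ 2 := by nlinarith
  have h2 : ((1 + δ) ^ 2) ^ (q - i) ≤ 2 :=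
    (pow_le_pow_right₀ hp (Nat.sub_le q i)).trans hexp
  have h3 : (((q - i : ℕ) : ℝ)) ≤ q := by exact_mod_cast Nat.sub_le q i
  have h4 : ((1 + δ) ^ 2) ^ (q - i) * (((q - i : ℕ) : ℝ) * (2 * Λ + 2)) ≤ q * (4 * Λ + 4) := by
    have h5 : (((q - i : ℕ) : ℝ) * (2 * Λ + 2)) ≤ q * (2 * Λ + 2) :=
      mul_le_mul_of_nonneg_right h3 (by linarith)
    have h6 : 0 ≤ (((q - i : ℕ) : ℝ) * (2 * Λ + 2)) := by positivity
    calc ((1 + δ) ^ 2) ^ (q - i) * (((q - i : ℕ) : ℝ) * (2 * Λ + 2))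
        ≤ 2 * (((q - i : ℕ) : ℝ) * (2 * Λ + 2)) := mul_le_mul_of_nonneg_right h2 h6
      _ ≤ 2 * (q * (2 * Λ + 2)) := by linarith
      _ = q * (4 * Λ + 4) := by ring
  have h7 := hNLP.2 (R i) a (q * (4 * Λ + 4)) (hR i hi) (by linarith) (fun x y =>
    (h1 x y).trans (mul_le_mul_of_nonneg_right h4 (abs_nonneg _)))
  have e : 2 * ((q : ℝ) * (4 * Λ + 4)) + 1 = q * (8 * Λ + 8) + 1 := by ring
  rw [e] at h7
  exact h7

end Pool.Agent.helper90.DH
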